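import Pool.Agent.Y271.RO.Stm
import Pool.Agent.Y283.NK.L2b
import Pool.Agent.Y283.NK.L2c
import Pool.Agent.Y529.NK.ANN
import Pool.Agent.Y77.NK.ADJ
import Pool.Agent.Y25.NK.SPN

/-!
# Project RO: assembly
-/

set_option autoImplicit false

namespace Pool.Agent.Y271.RO

open MeasureTheory Set Metric Filter Topology
open scoped InnerProductSpace ENNReal NNReal ComplexConjugate ContDiff
open Pool.Agent.Y283.NK (ct IsMul HasHyp)

lemma Cheap.mono {W : ℂ → ℝ} {a : ℂ} {τ τ' r η : ℝ} (h : Cheap W a τ r η) (hτ : τ ≤ τ') :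
    Cheap W a τ' r η := by
  obtain ⟨z, m, h1, h2, h3, h4⟩ := h
  exact ⟨z, m, ball_subset_ball hτ h1, h2, h3, h4⟩

lemma fd_integrable {f : ℂ → ℂ} {a : ℂ} {r : ℝ} (hi : IntegrableOn f (ball a r)) :
    Integrable (fd f a r) := by
  unfold fd
  exact (integrable_indicator_iff measurableSet_ball).2 hi.norm

lemma fd_nonneg (f : ℂ → ℂ) (a : ℂ) (r : ℝ) (z : ℂ) : 0 ≤ fd f a r z := by
  unfold fd
  exact indicator_nonneg (fun _ _ => norm_nonneg _) _

theorem dich (hPCA : S_PCA) (hPCB : S_PCB) (hPOL : S_POL) (hALT : S_ALT) (hSMO : S_SMO)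
    (hTUNA : S_TUNA) (hCUTA : S_CUTA) (f : ℂ → ℂ) (a : ℂ) (r : ℝ) (hr : 0 < r)
    (hf : Measurable f) (hi : IntegrableOn f (ball a r))
    (hne : ∀ᵐ z ∂(volume.restrict (ball a r)), f z ≠ 0) :
    Tun f a r ∨ ∃ τ, 0 < τ ∧ τ < 2 * r ∧ Cut f a τ (2 * r) := by
  by_cases h : ∀ k : ℕ, ∃ n : ℕ, k ≤ n ∧
      Cheap (pw (fd f a r) (1 / (n + 1))) a (1 / (k + 1)) r (1 / (k + 1))
  · exact Or.inl (hTUNA hPCB hPOL f a r hr hf hi h)
  right
  push Not at h
  obtain ⟨k, hk⟩ := h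
  have hk1 : (0:ℝ) < 1 / ((k:ℝ) + 1) := by positivity
  set τ0 : ℝ := min (1 / ((k:ℝ) + 1)) (r / 2) with hτ0
  have hτpos : 0 < τ0 := lt_min hk1 (by positivity)
  have hτr : τ0 < r := (min_le_right _ _).trans_lt (by linarith)
  obtain ⟨hc, hL⟩ := hPCA (fd f a r) (fd_integrable hi) (fd_nonneg f a r)
  have hstep : ∀ n : ℕ, ∃ Θ' : ℂ → ℂ, ContDiff ℝ ∞ Θ' ∧ (∀ z ∈ ball a (τ0 / 2), Θ' z = 1) ∧
      (∀ z, 2 * r ≤ ‖z - a‖ → Θ' z = 0) ∧
      ∀ z, ‖db Θ' z‖ ≤ 1 / (1 / ((k:ℝ) + 1)) *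
        (pw (fd f a r) (1 / ((n + k : ℕ) + 1)) z + 1 / (n + 1)) := by
    intro n
    have hε : (0:ℝ) < 1 / (((n + k : ℕ) : ℝ) + 1) := by positivity
    obtain ⟨hWc, hW0⟩ := hc _ hε
    rcases hALT _ a τ0 r (1 / ((k:ℝ) + 1)) hWc hW0 hτpos hτr hk1 with h1 | ⟨Θ, h1, h2, h3, h4⟩
    · exact absurd (h1.mono (min_le_left _ _)) (hk (n + k) (by omega))
    · exact hSMO _ Θ a τ0 r (1 / ((k:ℝ) + 1)) (1 / ((n:ℝ) + 1)) hWc hW0 hτpos hτr hk1
        (by positivity) h1 h2 h3 h4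
  choose Θ' h1 h2 h3 h4 using hstep
  exact ⟨τ0 / 2, by positivity, by linarith, hCUTA hPCA f a (τ0 / 2) r (1 / ((k:ℝ) + 1)) k
    (by positivity) (by linarith) hk1 hf hi hne Θ' h1 h2 h3 h4⟩

lemma HasCh.mono {H : Type} [NormedAddCommGroup H] [InnerProductSpace ℂ H] {T : H →L[ℂ] H} {c : ℂ}
    {r r' : ℝ} (h : HasCh T c r) (h0 : 0 ≤ r) (hr : r ≤ r') : HasCh T c r' := by
  obtain ⟨X, ⟨h1, C, h2⟩, h3⟩ := h
  refine ⟨X, ⟨h1, |C|, fun k => (h2 k).trans ?_⟩, h3⟩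
  calc C * r ^ k ≤ |C| * r ^ k := mul_le_mul_of_nonneg_right (le_abs_self C) (by positivity)
    _ ≤ |C| * r' ^ k := mul_le_mul_of_nonneg_left (pow_le_pow_left₀ h0 hr k) (abs_nonneg C)

/-- Case B -/
theorem caseB (hWLIM : S_WLIM) (hCUTV : S_CUTV) (hFAR : S_FAR) (hSUR : S_SUR)
    {S : Type} [MeasurableSpace S] {μ : Measure S} [SigmaFinite μ] {φ : S → ℂ}
    {N : Lp ℂ 2 μ →L[ℂ] Lp ℂ 2 μ} (hN : IsMul φ N) (u v : Lp ℂ 2 μ) (a : ℂ) (τ r : ℝ)
    (hτ : 0 < τ) (hτr : τ < r) (hC : Cut (ff φ u v) a τ r) (hE : Ess N a) :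
    HasCh (T1 N u v) a r := by
  by_contra hno
  have hch : ∀ Y, IsChain (T1 N u v) a r Y → Y 0 = 0 := by
    intro Y hY
    by_contra h0
    exact hno ⟨Y, hY, h0⟩
  refine hSUR (Lp ℂ 2 μ) N u v a hE fun x => ?_
  obtain ⟨x₁, x₂, W, c, e1, e2, e3⟩ := hFAR S μ φ N hN u v a (τ / 2) (by positivity) x
  obtain ⟨X, Z, C, h1, h2, h3, h4⟩ := hCUTV S μ φ N hN u v a τ r hτ hτr hC x₁ e2
  obtain ⟨Y, W', hY, hx⟩ := (hWLIM (Lp ℂ 2 μ) (T1 N u v) a r C X (by linarith) h1 h3).1 a x₁ Z C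
    h2 h4
  refine ⟨W' + W, c, ?_⟩
  rw [e1, hx, hch Y hY, e3, map_add, smul_add]
  abel

/-- Case A -/
theorem caseA (hNUL : S_NUL) (hTST : S_TST) (hWKS : S_WKS) (hWEYL : S_WEYL)
    (hMID : S_MID) (hPTW : S_PTW) (hCON : S_CON) (hPOM : S_POM)
    {S : Type} [MeasurableSpace S] {μ : Measure S} [SigmaFinite μ] {φ : S → ℂ}
    {N : Lp ℂ 2 μ →L[ℂ] Lp ℂ 2 μ} (hN : IsMul φ N) (u v : Lp ℂ 2 μ) (hu : u ≠ 0) (a : ℂ) (r : ℝ)
    (hr : 0 < r) (hne : ∀ᵐ z ∂(volume.restrict (ball a r)), ff φ u v z ≠ 0)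
    (hT : Tun (ff φ u v) a r) : HasCh (T1 N u v) a r := by
  by_contra hno
  obtain ⟨b, q, C, hb, hq, hqC, hq0, hql⟩ := hT
  have hC0 : 0 ≤ C := (norm_nonneg _).trans (hqC 0 a (mem_ball_self hr))
  have hstar := hNUL S μ φ N hN u v a r hr q C hq hqC hq0 hno
  obtain ⟨ρ, hρ, hρr, hlim⟩ := hTST S μ φ hN.meas hN.bdd u a r q hr hu hstar
  have hsub : ball a ρ ⊆ ball a r := ball_subset_ball hρr
  obtain ⟨s, Q, hs, hQm, hQC, hQl⟩ := hWKS q a ρ C hC0 (fun n => (hq n).continuous.measurable)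
    (fun n z hz => hqC n z (hsub hz))
  -- the limit is analytic
  have hzero : ∀ (F : ℂ → ℂ) (ψ : ℂ → ℂ), tsupport ψ ⊆ ball a ρ →
      ∫ z, F z * db ψ z = ∫ z in ball a ρ, F z * db ψ z := by
    intro F ψ hψ
    rw [← integral_indicator measurableSet_ball]
    congr 1
    funext z
    by_cases hz : z ∈ ball a ρ
    · rw [indicator_of_mem hz]
    · rw [indicator_of_notMem hz, hPOM.2.2.2.2.2.2 ψ z (fun h => hz (hψ h)), mul_zero]
  have hdbi : ∀ ψ : ℂ → ℂ, ContDiff ℝ ∞ ψ → IntegrableOn (db ψ) (ball a ρ) := by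
    intro ψ hψ
    have hcont : Continuous (db ψ) := hPOM.2.2.2.2.1 ψ (hψ.of_le (by exact_mod_cast le_top))
    exact (hcont.continuousOn.integrableOn_compact (isCompact_closedBall a ρ)).mono_set
      ball_subset_closedBall
  obtain ⟨G, hGd, hGC, hGQ⟩ := hWEYL Q a ρ C hρ hQm hQC (by
    intro ψ hψ hsupp
    have hsupp' : tsupport ψ ⊆ ball a ρ := hsupp.trans Set.sdiff_subset
    have h1 := (hlim ψ hψ hsupp).comp hs.tendsto_atTop
    have h2 := hQl (db ψ) (hdbi ψ hψ)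
    have h3 : (fun n => ∫ z in ball a ρ, q (s n) z * db ψ z) =
        (fun n => ∫ z, q n z * db ψ z) ∘ s := by
      funext n
      exact (hzero _ ψ hsupp').symm
    rw [h3] at h2
    rw [hzero _ ψ hsupp']
    exact tendsto_nhds_unique h2 h1)
  have hGl : ∀ h : ℂ → ℂ, IntegrableOn h (ball a ρ) →
      Tendsto (fun n => ∫ z in ball a ρ, q (s n) z * h z) atTop
        (𝓝 (∫ z in ball a ρ, G z * h z)) := by
    intro h hh
    have h1 := hQl h hh
    have h2 : ∫ z in ball a ρ, Q z * h z = ∫ z in ball a ρ, G z * h z := by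
      refine integral_congr_ae ?_
      filter_upwards [hGQ] with z hz
      rw [hz]
    rwa [h2] at h1
  have hstar' : Star φ u a ρ (fun n => q (s n)) := by
    intro ψ hψ hsupp x
    exact (hstar ψ hψ (hsupp.trans hsub) x).comp hs.tendsto_atTop
  have hq' : ∀ n, ContDiff ℝ 1 (q (s n)) := fun n => hq (s n)
  have hqC' : ∀ n, ∀ z ∈ ball a ρ, ‖q (s n) z‖ ≤ C := fun n z hz => hqC (s n) z (hsub hz)
  have hq0' : Tendsto (fun n => ∫⁻ z in ball a ρ, ‖ff φ u v z * db (q (s n)) z‖ₑ) atTop (𝓝 0) := by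
    refine tendsto_of_tendsto_of_tendsto_of_le_of_le tendsto_const_nhds
      (hq0.comp hs.tendsto_atTop) (fun _ => zero_le) (fun n => ?_)
    exact lintegral_mono_set hsub
  -- a bump function
  let B : ContDiffBump a := ⟨ρ / 2, 3 * ρ / 4, by positivity, by linarith⟩
  set ψ : ℂ → ℂ := fun z => ((B z : ℝ) : ℂ) with hψdef
  have hψ : ContDiff ℝ ∞ ψ := Complex.ofRealCLM.contDiff.comp B.contDiff
  have hψs : tsupport ψ ⊆ ball a ρ := by
    have h1 : tsupport ψ ⊆ closedBall a (3 * ρ / 4) := by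
      refine closure_minimal ?_ isClosed_closedBall
      intro z hz
      have hz' : B z ≠ 0 := by
        intro h0
        apply hz
        show ((B z : ℝ) : ℂ) = 0
        rw [h0]
        simp
      have h2 : z ∈ Function.support B := hz'
      rw [B.support_eq] at h2
      exact ball_subset_closedBall h2
    exact h1.trans (closedBall_subset_ball (by linarith))
  have hψ1 : ∀ z ∈ ball a (ρ / 2), ψ z = 1 := by
    intro z hz
    have h1 : B z = 1 := B.one_of_mem_closedBall (ball_subset_closedBall hz)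
    show ((B z : ℝ) : ℂ) = 1
    rw [h1]
    simp
  obtain ⟨s', hs', hae⟩ := hPTW S μ φ hN.meas u v a ρ C (fun n => q (s n)) G hρ hq' hqC' hGd hGC
    hGl hq0' ψ hψ hψs
    (hMID S μ φ hN.meas u a ρ C (fun n => q (s n)) G hρ hq' hqC' hGd hGC hGl hstar' ψ hψ hψs)
  refine hCON G a b (ρ / 2) (by positivity) (by linarith) (hGd.mono (ball_subset_ball (by linarith))) ?_
  have hsub2 : ball a (ρ / 2) ⊆ ball a r := ball_subset_ball (by linarith)
  have hne' : ∀ᵐ z ∂(volume.restrict (ball a (ρ / 2))), ff φ u v z ≠ 0 :=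
    ae_restrict_of_ae_restrict_of_subset hsub2 hne
  filter_upwards [hne', ae_restrict_of_ae hae, ae_restrict_mem measurableSet_ball] with z h1 h2 h3
  have h4 : Tendsto (fun n => q (s (s' n)) z * ff φ u v z) atTop (𝓝 (G z * ff φ u v z)) := by
    have := h2
    simp only [hψ1 z h3, one_mul] at this
    exact this
  have h5 : Tendsto (fun n => q (s (s' n)) z) atTop (𝓝 (G z)) := by
    have h6 := h4.mul_const (ff φ u v z)⁻¹
    simp only [mul_assoc, mul_inv_cancel₀ h1, mul_one] at h6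
    exact h6
  have h6 : Tendsto (fun n => ‖q (s (s' n)) z‖ ^ 2) atTop (𝓝 (‖G z‖ ^ 2)) := (h5.norm).pow 2
  have h7 := (hql z (hsub2 h3)).comp (hs.comp hs').tendsto_atTop
  exact tendsto_nhds_unique h6 h7

/-- chains at the points of the essential spectrum -/
theorem chain (hCTG : S_CTG) (hZERO : S_ZERO)
    (hPCA : S_PCA) (hPCB : S_PCB) (hPOL : S_POL) (hALT : S_ALT) (hSMO : S_SMO)
    (hTUNA : S_TUNA) (hCUTA : S_CUTA)
    (hWLIM : S_WLIM) (hCUTV : S_CUTV) (hFAR : S_FAR) (hSUR : S_SUR)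
    (hNUL : S_NUL) (hTST : S_TST) (hWKS : S_WKS) (hWEYL : S_WEYL)
    (hMID : S_MID) (hPTW : S_PTW) (hCON : S_CON) (hPOM : S_POM) (hNOR : S_NOR)
    {S : Type} [MeasurableSpace S] {μ : Measure S} [SigmaFinite μ] {φ : S → ℂ}
    {N : Lp ℂ 2 μ →L[ℂ] Lp ℂ 2 μ} (hN : IsMul φ N) (u v : Lp ℂ 2 μ) (a : ℂ) (r : ℝ)
    (hr : 0 < r) (hE : Ess N a) : HasCh (T1 N u v) a r := by
  by_cases hu : u = 0
  · have h1 : T1 N u v = N := by
      unfold T1
      rw [hu]
      ext1 f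
      simp
    rw [h1]
    exact hNOR S μ φ N hN a r hr hE
  by_cases hne : ∀ᵐ z ∂(volume.restrict (ball a (r / 2))), ff φ u v z ≠ 0
  · obtain ⟨hm, hli, -⟩ := hCTG S μ φ hN.meas v u
    have hf : Measurable (ff φ u v) := by
      unfold ff
      exact measurable_const.sub hm
    have hi : IntegrableOn (ff φ u v) (ball a (r / 2)) := by
      have h1 : IntegrableOn (ct φ v u) (ball a (r / 2)) :=
        (hli.integrableOn_isCompact (isCompact_closedBall a (r / 2))).mono_set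
          ball_subset_closedBall
      unfold ff
      exact (integrableOn_const measure_ball_lt_top.ne (by simp)).sub h1
    rcases dich hPCA hPCB hPOL hALT hSMO hTUNA hCUTA (ff φ u v) a (r / 2) (by positivity) hf hi hne
      with h | ⟨τ, h1, h2, h3⟩
    · exact (caseA hNUL hTST hWKS hWEYL hMID hPTW hCON hPOM hN u v hu a (r / 2) (by positivity)
        hne h).mono (by positivity) (by linarith)
    · exact (caseB hWLIM hCUTV hFAR hSUR hN u v a τ (2 * (r / 2)) h1 h2 h3 hE).mono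
        (by positivity) (by linarith)
  · exact (hZERO S μ φ N hN u v a (r / 2) (by positivity) hu hne).mono (by positivity)
      (by linarith)

lemma adj_T1 {H : Type} [NormedAddCommGroup H] [InnerProductSpace ℂ H] [CompleteSpace H]
    (N : H →L[ℂ] H) (u v : H) :
    ContinuousLinearMap.adjoint (T1 N u v) = T1 (ContinuousLinearMap.adjoint N) v u := by
  ext1 f
  refine ext_inner_right ℂ fun y => ?_
  rw [ContinuousLinearMap.adjoint_inner_left]
  unfold T1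
  simp only [ContinuousLinearMap.add_apply, ContinuousLinearMap.smulRight_apply, innerSL_apply_apply,
    inner_add_right, inner_add_left, ContinuousLinearMap.adjoint_inner_left, inner_smul_left,
    inner_smul_right, inner_conj_symm]
  ring

lemma Ess.adj {H : Type} [NormedAddCommGroup H] [InnerProductSpace ℂ H] [CompleteSpace H]
    {N : H →L[ℂ] H} {a : ℂ} (h : Ess N a) : Ess (ContinuousLinearMap.adjoint N) (conj a) := by
  obtain ⟨e, h1, h2, h3, h4⟩ := h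
  refine ⟨e, h1, h2, h4, ?_⟩
  rw [ContinuousLinearMap.adjoint_adjoint, Complex.conj_conj]
  exact h3

/-- rank one operators are compact -/
lemma rank_compact {H : Type} [NormedAddCommGroup H] [InnerProductSpace ℂ H] [CompleteSpace H]
    (u v : H) : IsCompactOperator (⇑((innerSL ℂ v).smulRight u : H →L[ℂ] H)) := by
  have h1 : IsCompactOperator (⇑(innerSL ℂ v : H →L[ℂ] ℂ)) := by
    refine ⟨closedBall 0 1, isCompact_closedBall 0 1, ?_⟩
    exact (innerSL ℂ v).continuous.continuousAt.preimage_mem_nhds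
      (by rw [map_zero]; exact closedBall_mem_nhds 0 one_pos)
  have h2 := h1.clm_comp ((1 : ℂ →L[ℂ] ℂ).smulRight u)
  have h3 : (⇑((1 : ℂ →L[ℂ] ℂ).smulRight u) ∘ ⇑(innerSL ℂ v)) =
      ⇑((innerSL ℂ v).smulRight u : H →L[ℂ] H) := by
    funext f
    simp
  rw [h3] at h2
  exact h2

lemma hyp_shift {H : Type} [NormedAddCommGroup H] [NormedSpace ℂ H] {T : H →L[ℂ] H} (c : ℂ)
    (h : HasHyp (T - c • (1 : H →L[ℂ] H))) : HasHyp T := by
  obtain ⟨V, h1, h2, h3, h4⟩ := h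
  refine ⟨V, h1, h2, h3, fun Q hQ x hx => h4 Q ?_ x hx⟩
  rw [mul_sub, sub_mul, hQ, mul_smul_comm, smul_mul_assoc, mul_one, one_mul]

/-- the theorem for multiplication operators, from the existence of chains -/
theorem mulCase (hESS : S_ESS)
    (hchain : ∀ (S : Type) [MeasurableSpace S] (μ : Measure S) [SigmaFinite μ] (φ : S → ℂ)
      (N : Lp ℂ 2 μ →L[ℂ] Lp ℂ 2 μ), IsMul φ N → ∀ (u v : Lp ℂ 2 μ) (a : ℂ) (r : ℝ), 0 < r →
      Ess N a → HasCh (T1 N u v) a r)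
    {S : Type} [MeasurableSpace S] {μ : Measure S} [SigmaFinite μ] {φ : S → ℂ}
    {N : Lp ℂ 2 μ →L[ℂ] Lp ℂ 2 μ} (hN : IsMul φ N) (u v : Lp ℂ 2 μ) :
    (∃ c : ℂ, T1 N u v = c • 1) ∨ HasHyp (T1 N u v) := by
  rcases hESS S μ φ N hN with ⟨a, b, hab, ha, hb⟩ | ⟨a, ha⟩
  · right
    have hdist : 0 < ‖a - b‖ := norm_pos_iff.2 (sub_ne_zero.2 hab)
    obtain ⟨X, ⟨X1, C₁, X2⟩, X3⟩ := hchain S μ φ N hN u v a (‖a - b‖ / 3) (by positivity) ha
    obtain ⟨Y, ⟨Y1, C₂, Y2⟩, Y3⟩ := hchain S μ _ _ (Pool.Agent.Y77.NK.isMul_adj hN) v u (conj b)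
      (‖a - b‖ / 3) (by positivity) hb.adj
    rw [← adj_T1] at Y1
    exact Pool.Agent.Y529.NK.ANN.main (Lp ℂ 2 μ) (T1 N u v) a b _ _ C₁ C₂ X Y (by positivity)
      (by positivity) (by linarith) X1 X2 Y1 Y2 X3 Y3
  · by_cases hsc : ∃ c : ℂ, T1 N u v = c • 1
    · exact Or.inl hsc
    right
    have h1 : IsCompactOperator (⇑(T1 N u v - a • (1 : Lp ℂ 2 μ →L[ℂ] Lp ℂ 2 μ))) := by
      have h4 : T1 N u v - a • (1 : Lp ℂ 2 μ →L[ℂ] Lp ℂ 2 μ) =
          (N - a • (1 : Lp ℂ 2 μ →L[ℂ] Lp ℂ 2 μ)) + (innerSL ℂ v).smulRight u := by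
        unfold T1
        abel
      rw [h4]
      exact ha.add (rank_compact u v)
    refine hyp_shift a (Pool.Agent.W577.HI.G1.main _ _ h1 ?_)
    rintro ⟨c, hc⟩
    apply hsc
    refine ⟨c + a, ?_⟩
    rw [add_smul, ← hc]
    abel

/-- the model of a normal operator and its rank one perturbations -/
theorem exists_model (H : Type) [NormedAddCommGroup H] [InnerProductSpace ℂ H] [CompleteSpace H]
    [TopologicalSpace.SeparableSpace H] (N : H →L[ℂ] H) (hN : IsStarNormal N) :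
    ∃ (S : Type) (_ : MeasurableSpace S) (μ : Measure S) (_ : SigmaFinite μ) (φ : S → ℂ)
      (W : Lp ℂ 2 μ ≃ₗᵢ[ℂ] H), IsMul φ (Pool.Agent.Y283.NK.cj W N) ∧
      ∀ u v : H, T1 (Pool.Agent.Y283.NK.cj W N) (W.symm u) (W.symm v) =
        Pool.Agent.Y283.NK.cj W (T1 N u v) := by
  obtain ⟨S, i1, μ, i2, φ, W, hφ, hφb, hW⟩ := Pool.Agent.Y25.NK.SPN.main H N hN
  refine ⟨S, i1, μ, i2, φ, W, ?_, fun u v => ?_⟩
  · refine ⟨hφ, ⟨‖N‖, hφb⟩, fun f => ?_⟩
    have h1 : MemLp (fun s => φ s * f s) 2 μ := by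
      refine MemLp.of_le_mul (c := ‖N‖) (Lp.memLp f)
        (hφ.aestronglyMeasurable.mul (Lp.aestronglyMeasurable f))
        (Eventually.of_forall fun s => ?_)
      rw [norm_mul]
      exact mul_le_mul_of_nonneg_right (hφb s) (norm_nonneg _)
    have h2 := hW f (h1.toLp _) h1.coeFn_toLp
    rw [Pool.Agent.Y283.NK.cj_apply, h2, LinearIsometryEquiv.symm_apply_apply]
    exact h1.coeFn_toLp
  · ext1 f
    rw [Pool.Agent.Y283.NK.cj_apply]
    unfold T1
    simp only [ContinuousLinearMap.add_apply, ContinuousLinearMap.smulRight_apply,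
      innerSL_apply_apply, map_add, map_smul, Pool.Agent.Y283.NK.cj_apply]
    congr 2
    rw [← W.inner_map_map, LinearIsometryEquiv.apply_symm_apply]

end Pool.Agent.Y271.RO
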