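import Pool.Agent.Y271.RO.Stm

set_option autoImplicit false

namespace Pool.Agent.Y271.RO.NULB

open MeasureTheory Set Metric Filter Topology
open scoped InnerProductSpace ENNReal NNReal ComplexConjugate ContDiff
open Pool.Agent.Y283.NK (ct IsMul HasHyp)
open Pool.Agent.Y271.RO

theorem main (hVEC : S_VEC) (hWLIM : S_WLIM) : S_NUL := by
  intro S _ μ _ φ N hN u v a r hr q C hq hqC hq0 hno ψ hψ hsupp x
  obtain ⟨K, hK⟩ := hVEC S μ φ N hN u v a r hr ψ hψ hsupp C
  have hV : ∀ n, ∃ V : ℕ → Lp ℂ 2 μ, (∀ k, ‖V k‖ ≤ K * r ^ k) ∧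
        (∀ k, T1 N u v (V k) - a • V k = V (k + 1) +
          (∫ z in ball a r, (z - a) ^ k * ψ z * (ff φ u v z * db (q n) z)) • u) ∧
        ∀ x : Lp ℂ 2 μ, ⟪x, V 0⟫_ℂ = (∫ z, q n z * db ψ z * ct φ x u z) +
          Real.pi * ∫ s, conj (x s) * (q n (φ s) * ψ (φ s) * u s) ∂μ :=
    fun n => hK (q n) (hq n) (hqC n)
  choose V hV1 hV2 hV3 using hV
  -- `ψ` is bounded
  have hcs : HasCompactSupport ψ :=
    (isCompact_closedBall a r).of_isClosed_subset (isClosed_tsupport ψ)
      (hsupp.trans ball_subset_closedBall)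
  obtain ⟨B, hB⟩ := hcs.exists_bound_of_continuous hψ.continuous
  have hB0 : 0 ≤ B := (norm_nonneg _).trans (hB a)
  have hlim : ∀ k : ℕ, Tendsto (fun n => ∫ z in ball a r,
      (z - a) ^ k * ψ z * (ff φ u v z * db (q n) z)) atTop (𝓝 0) := by
    intro k
    rw [tendsto_zero_iff_enorm_tendsto_zero]
    have hub : Tendsto (fun n => ENNReal.ofReal (r ^ k * B) *
        ∫⁻ z in ball a r, ‖ff φ u v z * db (q n) z‖ₑ) atTop (𝓝 0) := by
      have := ENNReal.Tendsto.const_mul (a := ENNReal.ofReal (r ^ k * B)) hq0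
        (Or.inr ENNReal.ofReal_ne_top)
      rwa [mul_zero] at this
    refine tendsto_of_tendsto_of_tendsto_of_le_of_le tendsto_const_nhds hub
      (fun _ => zero_le) (fun n => ?_)
    refine (enorm_integral_le_lintegral_enorm _).trans ?_
    rw [← lintegral_const_mul' _ _ ENNReal.ofReal_ne_top]
    refine setLIntegral_mono' measurableSet_ball fun z hz => ?_
    rw [enorm_mul]
    refine mul_le_mul' ?_ le_rfl
    rw [← ofReal_norm_eq_enorm]
    refine ENNReal.ofReal_le_ofReal ?_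
    rw [norm_mul, norm_pow]
    refine mul_le_mul (pow_le_pow_left₀ (norm_nonneg _) ?_ k) (hB z) (norm_nonneg _) (by positivity)
    exact (mem_ball_iff_norm.1 hz).le
  have h2 := (hWLIM (Lp ℂ 2 μ) (T1 N u v) a r K V hr.le hV1 (by
    intro k
    have h3 : (fun n => T1 N u v (V n k) - a • V n k - V n (k + 1)) =
        fun n => (∫ z in ball a r, (z - a) ^ k * ψ z * (ff φ u v z * db (q n) z)) • u := by
      funext n
      rw [hV2 n k]
      abel
    rw [h3]
    have := (hlim k).smul_const u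
    rwa [zero_smul] at this)).2 (by
    intro Y hY
    by_contra h0
    exact hno ⟨Y, hY, h0⟩) x
  have h3 : (fun n => ⟪x, V n 0⟫_ℂ) = fun n => (∫ z, q n z * db ψ z * ct φ x u z) +
      Real.pi * ∫ s, conj (x s) * (q n (φ s) * ψ (φ s) * u s) ∂μ := by
    funext n
    exact hV3 n x
  rwa [h3] at h2

end Pool.Agent.Y271.RO.NULB
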