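import Pool.Agent.Y271.RO.Stm

/-!
# Project RO: points outside the essential spectrum
-/

set_option autoImplicit false

namespace Pool.Agent.Y271.RO

open MeasureTheory Set Metric Filter Topology
open scoped InnerProductSpace ENNReal NNReal ComplexConjugate ContDiff
open Pool.Agent.Y283.NK (ct IsMul HasHyp)

/-- FRE: outside the essential spectrum `N - c` is invertible modulo compact operators -/
def S_FRE : Prop :=
  ∀ (S : Type) [MeasurableSpace S] (μ : Measure S) [SigmaFinite μ] (φ : S → ℂ)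
    (N : Lp ℂ 2 μ →L[ℂ] Lp ℂ 2 μ), IsMul φ N → ∀ c : ℂ, Ess N c ∨
      ∃ A F : Lp ℂ 2 μ →L[ℂ] Lp ℂ 2 μ, N = A + F ∧ IsCompactOperator F ∧ c ∉ spectrum ℂ A

end Pool.Agent.Y271.RO
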