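import Pool.Agent.Y839.RO.POM
import Pool.Agent.H720R2.HP.IVL

/-!
# Project RO of helper271: Weyl's lemma with a removable singularity (`S_WEYL`)
-/

set_option autoImplicit false

namespace Pool.Agent.Y271.RO.WEYL

open MeasureTheory Set Metric Filter Topology
open scoped InnerProductSpace ENNReal NNReal ComplexConjugate ContDiff
open Pool.Agent.Y271.RO (db)

theorem db_mul {F G : ℂ → ℂ} {z : ℂ} (hF : DifferentiableAt ℝ F z) (hG : DifferentiableAt ℝ G z) :
    db (fun w => F w * G w) z = db F z * G z + F z * db G z :=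
  Pool.Agent.Y839.RO.main.2.1 F G z hF hG

theorem db_cont {F : ℂ → ℂ} (hF : ContDiff ℝ ∞ F) : Continuous (db F) :=
  Pool.Agent.Y839.RO.main.2.2.2.2.1 F (hF.of_le (by exact_mod_cast le_top))

theorem db_zero {F : ℂ → ℂ} {z : ℂ} (hz : z ∉ tsupport F) : db F z = 0 :=
  Pool.Agent.Y839.RO.main.2.2.2.2.2.2 F z hz

theorem db_supp {F : ℂ → ℂ} (hc : HasCompactSupport F) : HasCompactSupport (db F) :=
  HasCompactSupport.intro hc fun _ hz => db_zero hz

theorem db_sub {F G : ℂ → ℂ} {z : ℂ} (hF : DifferentiableAt ℝ F z) (hG : DifferentiableAt ℝ G z) :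
    db (fun w => F w - G w) z = db F z - db G z := by
  have h : fderiv ℝ (fun w => F w - G w) z = fderiv ℝ F z - fderiv ℝ G z :=
    (hF.hasFDerivAt.sub hG.hasFDerivAt).fderiv
  unfold db
  rw [h]
  simp only [sub_apply]
  ring

theorem db_scale {B : ℂ → ℂ} (hB : Differentiable ℝ B) (t : ℝ) (a z : ℂ) :
    db (fun z => B (t • (z - a))) z = t * db B (t • (z - a)) := by
  have h1 : HasFDerivAt (fun z : ℂ => t • (z - a)) (t • ContinuousLinearMap.id ℝ ℂ) z :=
    ((hasFDerivAt_id z).sub_const a).const_smul t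
  have h2 : fderiv ℝ (fun z => B (t • (z - a))) z =
      (fderiv ℝ B (t • (z - a))).comp (t • ContinuousLinearMap.id ℝ ℂ) :=
    ((hB (t • (z - a))).hasFDerivAt.comp z h1).fderiv
  unfold db
  rw [h2]
  simp only [ContinuousLinearMap.comp_apply, smul_apply, ContinuousLinearMap.id_apply]
  have e1 := (fderiv ℝ B (t • (z - a))).map_smul t 1
  have e2 := (fderiv ℝ B (t • (z - a))).map_smul t Complex.I
  rw [e1, e2]
  simp only [Complex.real_smul]
  ring

theorem integrable_db {Q : ℂ → ℂ} {C : ℝ} (hQ : Measurable Q) (hC : ∀ z, ‖Q z‖ ≤ C) {ψ : ℂ → ℂ}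
    (hψ : ContDiff ℝ ∞ ψ) (hc : HasCompactSupport ψ) : Integrable (fun z => Q z * db ψ z) :=
  ((db_cont hψ).integrable_of_hasCompactSupport (db_supp hc)).bdd_mul (c := C)
    hQ.aestronglyMeasurable (Eventually.of_forall hC)

/-- the condition holds for all test functions -/
theorem step1 (Q : ℂ → ℂ) (a : ℂ) (ρ C : ℝ) (hQ : Measurable Q)
    (hC : ∀ z, ‖Q z‖ ≤ C)
    (h : ∀ ψ : ℂ → ℂ, ContDiff ℝ ∞ ψ → tsupport ψ ⊆ ball a ρ \ {a} → ∫ z, Q z * db ψ z = 0)
    (ψ : ℂ → ℂ) (hψ : ContDiff ℝ ∞ ψ) (hc : HasCompactSupport ψ) (hs : tsupport ψ ⊆ ball a ρ) :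
    ∫ z, Q z * db ψ z = 0 := by
  have hC0 : 0 ≤ C := (norm_nonneg _).trans (hC 0)
  let β : ContDiffBump (0 : ℂ) := ⟨1, 2, one_pos, one_lt_two⟩
  let B : ℂ → ℂ := fun z => ((β z : ℝ) : ℂ)
  have hB : ContDiff ℝ ∞ B := Complex.ofRealCLM.contDiff.comp β.contDiff
  have hBc : HasCompactSupport B := β.hasCompactSupport.comp_left (g := fun x : ℝ => (x : ℂ)) (by simp)
  have hBd : Differentiable ℝ B := hB.differentiable (by simp)
  obtain ⟨K, hK⟩ := (db_cont hB).bounded_above_of_compact_support (db_supp hBc)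
  obtain ⟨M0, hM0⟩ := hψ.continuous.bounded_above_of_compact_support hc
  obtain ⟨M1, hM1⟩ := (db_cont hψ).bounded_above_of_compact_support (db_supp hc)
  have hK0 : 0 ≤ K := (norm_nonneg _).trans (hK 0)
  have hM00 : 0 ≤ M0 := (norm_nonneg _).trans (hM0 0)
  have hM10 : 0 ≤ M1 := (norm_nonneg _).trans (hM1 0)
  have hB1 : ∀ z, ‖B z‖ ≤ 1 := by
    intro z
    simp only [B, Complex.norm_real, Real.norm_eq_abs]
    rw [abs_of_nonneg (β.nonneg)]
    exact β.le_one
  -- the estimate
  have key : ∀ t : ℝ, 1 ≤ t → ‖∫ z, Q z * db ψ z‖ ≤ C * (M1 + M0 * K) * (4 * Real.pi) / t := by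
    intro t ht
    have ht0 : 0 < t := by linarith
    let χ : ℂ → ℂ := fun z => B (t • (z - a))
    have hχ : ContDiff ℝ ∞ χ := hB.comp (by fun_prop : ContDiff ℝ ∞ fun z : ℂ => t • (z - a))
    have hψd : Differentiable ℝ ψ := hψ.differentiable (by simp)
    have hχd : Differentiable ℝ χ := hχ.differentiable (by simp)
    have hχ1 : ∀ z ∈ ball a (1 / t), χ z = 1 := by
      intro z hz
      have : t • (z - a) ∈ closedBall (0 : ℂ) 1 := by
        rw [mem_closedBall_zero_iff, norm_smul, Real.norm_of_nonneg ht0.le]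
        rw [mem_ball, dist_eq_norm, lt_div_iff₀ ht0] at hz
        linarith
      simp only [χ, B]
      rw [β.one_of_mem_closedBall this]
      simp
    have hχ0 : ∀ z, z ∉ closedBall a (2 / t) → χ z = 0 := by
      intro z hz
      have : β (t • (z - a)) = 0 := by
        apply β.zero_of_le_dist
        rw [dist_zero_right, norm_smul, Real.norm_of_nonneg ht0.le]
        rw [mem_closedBall, dist_eq_norm, not_le, div_lt_iff₀ ht0] at hz
        show (2 : ℝ) ≤ _
        linarith
      simp only [χ, B, this, Complex.ofReal_zero]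
    have hP : ContDiff ℝ ∞ (fun z => ψ z * χ z) := hψ.mul hχ
    have hPc : HasCompactSupport (fun z => ψ z * χ z) := hc.mul_right
    have hdiff : ∫ z, Q z * db (fun z => ψ z - ψ z * χ z) z = 0 := by
      apply h _ (hψ.sub hP)
      intro z hz
      refine ⟨hs ?_, ?_⟩
      · refine closure_mono ?_ hz
        intro w hw
        rw [Function.mem_support] at hw ⊢
        intro h0
        apply hw
        simp [h0]
      · rintro rfl
        rw [tsupport, _root_.mem_closure_iff] at hz
        obtain ⟨w, hw1, hw2⟩ := hz (ball z (1 / t)) isOpen_ball (mem_ball_self (by positivity))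
        rw [Function.mem_support] at hw2
        apply hw2
        rw [hχ1 w hw1]; ring
    have heq : ∀ z, Q z * db (fun z => ψ z - ψ z * χ z) z =
        Q z * db ψ z - Q z * db (fun z => ψ z * χ z) z := by
      intro z
      have hPd : DifferentiableAt ℝ (fun z => ψ z * χ z) z := (hψd z).mul (hχd z)
      rw [db_sub (hψd z) hPd]
      ring
    simp only [heq] at hdiff
    rw [integral_sub (integrable_db hQ hC hψ hc) (integrable_db hQ hC hP hPc), sub_eq_zero] at hdiff
    rw [hdiff]
    have hts : ∀ z, z ∉ closedBall a (2 / t) → Q z * db (fun z => ψ z * χ z) z = 0 := by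
      intro z hz
      rw [db_zero, mul_zero]
      intro hz2
      apply hz
      refine closure_minimal ?_ isClosed_closedBall hz2
      intro w hw
      by_contra hw2
      rw [Function.mem_support] at hw
      apply hw
      rw [hχ0 w hw2, mul_zero]
    rw [← setIntegral_eq_integral_of_forall_compl_eq_zero hts]
    have hbound : ∀ z ∈ closedBall a (2 / t), ‖Q z * db (fun z => ψ z * χ z) z‖ ≤
        C * (M1 + M0 * (t * K)) := by
      intro z _
      rw [norm_mul]
      apply mul_le_mul (hC z) _ (norm_nonneg _) hC0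
      rw [db_mul (hψd z) (hχd z)]
      refine (norm_add_le _ _).trans (add_le_add ?_ ?_)
      · rw [norm_mul]
        calc ‖db ψ z‖ * ‖χ z‖ ≤ M1 * 1 := mul_le_mul (hM1 z) (hB1 _) (norm_nonneg _) hM10
          _ = M1 := mul_one _
      · rw [norm_mul]
        apply mul_le_mul (hM0 z) _ (norm_nonneg _) hM00
        have : db χ z = t * db B (t • (z - a)) := db_scale hBd t a z
        rw [this, norm_mul, Complex.norm_real, Real.norm_of_nonneg ht0.le]
        exact mul_le_mul_of_nonneg_left (hK _) ht0.le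
    have hfin : volume (closedBall a (2 / t)) < ⊤ := measure_closedBall_lt_top
    have h3 := norm_setIntegral_le_of_norm_le_const hfin hbound
    refine h3.trans ?_
    have hvol : (volume : Measure ℂ).real (closedBall a (2 / t)) = Real.pi * (2 / t) ^ 2 := by
      rw [Measure.real, Complex.volume_closedBall]
      rw [ENNReal.toReal_mul, ENNReal.toReal_pow, ENNReal.toReal_ofReal (by positivity)]
      simp only [ENNReal.coe_toReal, NNReal.coe_real_pi]
      ring
    rw [hvol]
    have hpi := Real.pi_pos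
    calc C * (M1 + M0 * (t * K)) * (Real.pi * (2 / t) ^ 2)
        ≤ C * (t * M1 + M0 * (t * K)) * (Real.pi * (2 / t) ^ 2) := by
          gcongr
          nlinarith
      _ = C * (M1 + M0 * K) * (4 * Real.pi) / t := by field_simp; ring
  by_contra hne
  have hpos : 0 < ‖∫ z, Q z * db ψ z‖ := norm_pos_iff.2 hne
  set J := ‖∫ z, Q z * db ψ z‖ with hJ
  set A := C * (M1 + M0 * K) * (4 * Real.pi) with hA
  have hA0 : 0 ≤ A := by positivity
  have h1 := key (max 1 ((A + 1) / J)) (le_max_left _ _)
  have ht : 0 < max 1 ((A + 1) / J) := lt_of_lt_of_le one_pos (le_max_left _ _)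
  rw [le_div_iff₀ ht] at h1
  have h2 : J * ((A + 1) / J) ≤ J * max 1 ((A + 1) / J) :=
    mul_le_mul_of_nonneg_left (le_max_right _ _) hpos.le
  rw [mul_div_cancel₀ _ hpos.ne'] at h2
  linarith

theorem main : Pool.Agent.Y271.RO.S_WEYL := by
  intro Q a ρ C hρ hQ hC h
  have hC0 : 0 ≤ C := (norm_nonneg _).trans (hC 0)
  have h1 := step1 Q a ρ C hQ hC h
  have hli : LocallyIntegrableOn Q (ball a ρ) := by
    apply LocallyIntegrable.locallyIntegrableOn
    have : LocallyIntegrable (fun _ : ℂ => C) volume := locallyIntegrable_const C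
    exact this.mono hQ.aestronglyMeasurable (Eventually.of_forall fun z => by
      rw [Real.norm_of_nonneg hC0]; exact hC z)
  have hloc : ∀ z ∈ ball a ρ, ∃ f' : ℂ → ℂ, DifferentiableOn ℂ f' (ball z ((ρ - dist z a) / 4)) ∧
      ∀ᵐ w ∂(volume.restrict (ball z ((ρ - dist z a) / 4))), Q w = f' w := by
    intro z hz
    rw [mem_ball] at hz
    apply Pool.Agent.H720R2.HP.IV.local_holo (ball a ρ) isOpen_ball Q hli
    · intro φ hφ hφc hφs
      exact h1 φ hφ hφc hφs
    · linarith
    · intro w hw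
      rw [mem_closedBall] at hw
      rw [mem_ball]
      have := dist_triangle w z a
      linarith
  choose! g hg1 hg2 using hloc
  let G : ℂ → ℂ := fun z => g z z
  have hr : ∀ z ∈ ball a ρ, 0 < (ρ - dist z a) / 4 := by
    intro z hz
    rw [mem_ball] at hz
    linarith
  have hsub : ∀ z ∈ ball a ρ, ball z ((ρ - dist z a) / 4) ⊆ ball a ρ := by
    intro z hz w hw
    rw [mem_ball] at hz hw ⊢
    have := dist_triangle w z a
    linarith
  have hG : ∀ z ∈ ball a ρ, ∀ w ∈ ball z ((ρ - dist z a) / 4), G w = g z w := by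
    intro z hz w hw
    have hwΩ := hsub z hz hw
    set U := ball z ((ρ - dist z a) / 4) ∩ ball w ((ρ - dist w a) / 4) with hU
    have hUo : IsOpen U := isOpen_ball.inter isOpen_ball
    have hwU : w ∈ U := ⟨hw, mem_ball_self (hr w hwΩ)⟩
    have e1 : ∀ᵐ y ∂(volume.restrict U), Q y = g z y :=
      ae_restrict_of_ae_restrict_of_subset inter_subset_left (hg2 z hz)
    have e2 : ∀ᵐ y ∂(volume.restrict U), Q y = g w y :=
      ae_restrict_of_ae_restrict_of_subset inter_subset_right (hg2 w hwΩ)
    have e3 : g w =ᵐ[volume.restrict U] g z := by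
      filter_upwards [e1, e2] with y hy1 hy2
      rw [← hy1, ← hy2]
    have e4 := Measure.eqOn_open_of_ae_eq e3 hUo
      ((hg1 w hwΩ).continuousOn.mono inter_subset_right)
      ((hg1 z hz).continuousOn.mono inter_subset_left)
    exact e4 hwU
  have hGd : DifferentiableOn ℂ G (ball a ρ) := by
    intro z hz
    have h2 : DifferentiableAt ℂ (g z) z :=
      (hg1 z hz).differentiableAt (ball_mem_nhds z (hr z hz))
    have h3 : G =ᶠ[𝓝 z] g z := by
      filter_upwards [ball_mem_nhds z (hr z hz)] with w hw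
      exact hG z hz w hw
    exact (h2.congr_of_eventuallyEq h3).differentiableWithinAt
  have hae : ∀ᵐ z ∂(volume.restrict (ball a ρ)), Q z = G z := by
    rw [ae_restrict_iff' measurableSet_ball, ae_iff]
    apply measure_null_of_locally_null
    intro z hz
    simp only [mem_ofPred_eq, Classical.not_imp] at hz
    refine ⟨{w | ¬(w ∈ ball a ρ → Q w = G w)} ∩ ball z ((ρ - dist z a) / 4), ?_, ?_⟩
    · exact inter_mem self_mem_nhdsWithin (mem_nhdsWithin_of_mem_nhds (ball_mem_nhds z (hr z hz.1)))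
    · have h4 := hg2 z hz.1
      rw [ae_restrict_iff' measurableSet_ball, ae_iff] at h4
      refine measure_mono_null ?_ h4
      rintro w ⟨hw1, hw2⟩
      simp only [mem_ofPred_eq, Classical.not_imp] at hw1 ⊢
      refine ⟨hw2, ?_⟩
      rw [← hG z hz.1 w hw2]
      exact hw1.2
  refine ⟨G, hGd, ?_, hae⟩
  intro z hz
  by_contra hlt
  rw [not_le] at hlt
  have hopen : IsOpen (ball a ρ ∩ (fun w => ‖G w‖) ⁻¹' (Ioi C)) :=
    (hGd.continuousOn.norm).isOpen_inter_preimage isOpen_ball isOpen_Ioi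
  have hpos := hopen.measure_pos volume ⟨z, hz, hlt⟩
  rw [ae_restrict_iff' measurableSet_ball, ae_iff] at hae
  have hnull : volume (ball a ρ ∩ (fun w => ‖G w‖) ⁻¹' (Ioi C)) = 0 := by
    refine measure_mono_null ?_ hae
    rintro w ⟨hw1, hw2⟩
    simp only [mem_ofPred_eq, Classical.not_imp]
    refine ⟨hw1, fun heq => ?_⟩
    have := hC w
    rw [heq] at this
    rw [mem_preimage, mem_Ioi] at hw2
    linarith
  exact hpos.ne' hnull

end Pool.Agent.Y271.RO.WEYL
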