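import Pool.Agent.Y283.NK.Stm2

/-!
# Project RO: rank one perturbations `N + u ⊗ v` of normal operators (all of them)

Statements of the independent parts.  `ct φ w x z = ∫ conj w x / (z - φ) dμ` is defined in
`Pool/Agent/Y283/NK/Stm2.lean`.
-/

set_option autoImplicit false

namespace Pool.Agent.Y271.RO

open MeasureTheory Set Metric Filter Topology
open scoped InnerProductSpace ENNReal NNReal ComplexConjugate ContDiff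
open Pool.Agent.Y283.NK (ct IsMul HasHyp)

/-- the derivative `∂̄ g` -/
noncomputable def db (g : ℂ → ℂ) (z : ℂ) : ℂ :=
  (fderiv ℝ g z 1 + Complex.I * fderiv ℝ g z Complex.I) / 2

/-- the Cauchy transform of `g dA` -/
noncomputable def ht (g : ℂ → ℂ) (l : ℂ) : ℂ := ∫ z, g z * (z - l)⁻¹

/-- `g` is measurable, bounded by `M` and vanishes off the disc -/
structure Bd (g : ℂ → ℂ) (c : ℂ) (r M : ℝ) : Prop where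
  meas : Measurable g
  nonneg : 0 ≤ M
  bd : ∀ z, ‖g z‖ ≤ M
  supp : ∀ z, z ∉ ball c r → g z = 0

/-- the operator `N + u ⊗ v` -/
noncomputable def T1 {H : Type} [NormedAddCommGroup H] [InnerProductSpace ℂ H] (N : H →L[ℂ] H)
    (u v : H) : H →L[ℂ] H := N + (innerSL ℂ v).smulRight u

/-- chains: `X 0` lies in the local spectral subspace of the disc -/
def IsChain {H : Type} [NormedAddCommGroup H] [InnerProductSpace ℂ H] (T : H →L[ℂ] H) (c : ℂ)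
    (r : ℝ) (X : ℕ → H) : Prop :=
  (∀ k, T (X k) - c • X k = X (k + 1)) ∧ ∃ C : ℝ, ∀ k, ‖X k‖ ≤ C * r ^ k

/-- there is a nonzero chain -/
def HasCh {H : Type} [NormedAddCommGroup H] [InnerProductSpace ℂ H] (T : H →L[ℂ] H) (c : ℂ)
    (r : ℝ) : Prop := ∃ X, IsChain T c r X ∧ X 0 ≠ 0

/-- the vector `h(φ) x` -/
noncomputable def mv {S : Type} [MeasurableSpace S] {μ : Measure S} (φ : S → ℂ) (x : Lp ℂ 2 μ)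
    (h : ℂ → ℂ) : Lp ℂ 2 μ := by
  classical exact if h' : MemLp (fun s => h (φ s) * x s) 2 μ then h'.toLp _ else 0

/-- the function `f(z) = 1 - ∫ conj v u / (z - φ) dμ` -/
noncomputable def ff {S : Type} [MeasurableSpace S] {μ : Measure S} (φ : S → ℂ)
    (u v : Lp ℂ 2 μ) (z : ℂ) : ℂ := 1 - ct φ v u z

/-- HT: area Cauchy transforms of bounded functions -/
def S_HT : Prop :=
  ∀ r : ℝ, 0 < r → ∃ K : ℝ, 0 ≤ K ∧ ∀ (c : ℂ) (M : ℝ) (g : ℂ → ℂ), Bd g c r M →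
    Integrable g ∧ Measurable (ht g) ∧ (∀ l, Integrable (fun z => g z * (z - l)⁻¹)) ∧
    (∀ l, ‖ht g l‖ ≤ K * M) ∧
    ∀ b l : ℂ, ht (fun z => (z - b) * g z) l = (l - b) * ht g l + ∫ z, g z

/-- CTG: Cauchy transforms of `conj w x μ` are locally integrable; Fubini -/
def S_CTG : Prop :=
  ∀ (S : Type) [MeasurableSpace S] (μ : Measure S) [SigmaFinite μ] (φ : S → ℂ), Measurable φ →
    ∀ (w x : Lp ℂ 2 μ), Measurable (ct φ w x) ∧ LocallyIntegrable (ct φ w x) ∧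
    ∀ (c : ℂ) (r M : ℝ) (g : ℂ → ℂ), Bd g c r M →
      Integrable (fun z => g z * ct φ w x z) ∧
      ∫ s, conj (w s) * (ht g (φ s) * x s) ∂μ = ∫ z, g z * ct φ w x z

/-- MV: the vectors `h(φ) x` -/
def S_MV : Prop :=
  ∀ (S : Type) [MeasurableSpace S] (μ : Measure S) [SigmaFinite μ] (φ : S → ℂ)
    (N : Lp ℂ 2 μ →L[ℂ] Lp ℂ 2 μ), IsMul φ N →
    ∀ (x : Lp ℂ 2 μ) (h : ℂ → ℂ) (M : ℝ), Measurable h → 0 ≤ M → (∀ s, ‖h (φ s)‖ ≤ M) →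
      (⇑(mv φ x h) =ᵐ[μ] fun s => h (φ s) * x s) ∧ ‖mv φ x h‖ ≤ M * ‖x‖ ∧
      N (mv φ x h) = mv φ x (fun z => z * h z) ∧
      ∀ w : Lp ℂ 2 μ, ⟪w, mv φ x h⟫_ℂ = ∫ s, conj (w s) * (h (φ s) * x s) ∂μ

/-- POM: the formula of Cauchy and Pompeiu, product rule -/
def S_POM : Prop :=
  (∀ (χ : ℂ → ℂ), ContDiff ℝ 1 χ → HasCompactSupport χ → ∀ l, ht (db χ) l = -(Real.pi * χ l)) ∧
  (∀ (F G : ℂ → ℂ) (z : ℂ), DifferentiableAt ℝ F z → DifferentiableAt ℝ G z →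
    db (fun w => F w * G w) z = db F z * G z + F z * db G z) ∧
  (∀ (F : ℂ → ℂ) (z : ℂ), DifferentiableAt ℂ F z → db F z = 0) ∧
  (∀ (F : ℂ → ℂ), ContDiff ℝ ∞ F → ContDiff ℝ ∞ (db F)) ∧
  (∀ (F : ℂ → ℂ), ContDiff ℝ 1 F → Continuous (db F)) ∧
  (∀ (F : ℂ → ℂ) (z : ℂ), ‖db F z‖ ≤ ‖fderiv ℝ F z‖) ∧
  (∀ (F : ℂ → ℂ) (z : ℂ), z ∉ tsupport F → db F z = 0)

/-- WLIM: weak limits of approximate chains -/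
def S_WLIM : Prop :=
  ∀ (H : Type) [NormedAddCommGroup H] [InnerProductSpace ℂ H] [CompleteSpace H]
    (T : H →L[ℂ] H) (c : ℂ) (r C : ℝ) (X : ℕ → ℕ → H), 0 ≤ r →
    (∀ n k, ‖X n k‖ ≤ C * r ^ k) →
    (∀ k, Tendsto (fun n => T (X n k) - c • X n k - X n (k + 1)) atTop (𝓝 0)) →
    (∀ (b : ℂ) (x : H) (Z : ℕ → H) (C' : ℝ), (∀ n, ‖Z n‖ ≤ C') →
      Tendsto (fun n => x - X n 0 - (T (Z n) - b • Z n)) atTop (𝓝 0) →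
      ∃ (Y : ℕ → H) (W : H), IsChain T c r Y ∧ x = Y 0 + (T W - b • W)) ∧
    ((∀ Y, IsChain T c r Y → Y 0 = 0) → ∀ w : H, Tendsto (fun n => ⟪w, X n 0⟫_ℂ) atTop (𝓝 0))

/-- TEST: test vectors -/
def S_TEST : Prop :=
  ∀ (S : Type) [MeasurableSpace S] (μ : Measure S) [SigmaFinite μ] (φ : S → ℂ), Measurable φ →
    (∃ M : ℝ, ∀ s, ‖φ s‖ ≤ M) → ∀ u : Lp ℂ 2 μ, u ≠ 0 → ∃ l : ℂ, ∀ t : ℝ, 0 < t →
      ∃ x : Lp ℂ 2 μ, (∀ᵐ s ∂μ, φ s ∉ ball l t → x s = 0) ∧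
        (∀ z, 2 * t ≤ ‖z - l‖ → ct φ x u z ≠ 0) ∧
        DifferentiableOn ℂ (ct φ x u) {z | t < ‖z - l‖}

/-- ZERO: if `f` vanishes on a set of positive area -/
def S_ZERO : Prop :=
  ∀ (S : Type) [MeasurableSpace S] (μ : Measure S) [SigmaFinite μ] (φ : S → ℂ)
    (N : Lp ℂ 2 μ →L[ℂ] Lp ℂ 2 μ), IsMul φ N → ∀ (u v : Lp ℂ 2 μ) (a : ℂ) (r : ℝ), 0 < r →
    u ≠ 0 → ¬ (∀ᵐ z ∂(volume.restrict (ball a r)), ff φ u v z ≠ 0) → HasCh (T1 N u v) a r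

/-! ### Case A -/

/-- functions `q n` with `∫ |f| |∂̄ q n| → 0`, tending in modulus to `|(z - a) (z - b)| ^ (1 / 2)` -/
def Tun (f : ℂ → ℂ) (a : ℂ) (r : ℝ) : Prop :=
  ∃ (b : ℂ) (q : ℕ → ℂ → ℂ) (C : ℝ), r ≤ ‖b - a‖ ∧ (∀ n, ContDiff ℝ 1 (q n)) ∧
    (∀ n, ∀ z ∈ ball a r, ‖q n z‖ ≤ C) ∧
    Tendsto (fun n => ∫⁻ z in ball a r, ‖f z * db (q n) z‖ₑ) atTop (𝓝 0) ∧
    ∀ z ∈ ball a r, Tendsto (fun n => ‖q n z‖ ^ 2) atTop (𝓝 (‖z - a‖ * ‖z - b‖))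

/-- VEC: the vectors `Y((z-a)^k q ∂̄ψ) + π (φ-a)^k q(φ) ψ(φ) u` -/
def S_VEC : Prop :=
  ∀ (S : Type) [MeasurableSpace S] (μ : Measure S) [SigmaFinite μ] (φ : S → ℂ)
    (N : Lp ℂ 2 μ →L[ℂ] Lp ℂ 2 μ), IsMul φ N → ∀ (u v : Lp ℂ 2 μ) (a : ℂ) (r : ℝ), 0 < r →
    ∀ ψ : ℂ → ℂ, ContDiff ℝ ∞ ψ → tsupport ψ ⊆ ball a r → ∀ C : ℝ, ∃ K : ℝ, ∀ q : ℂ → ℂ,
      ContDiff ℝ 1 q → (∀ z ∈ ball a r, ‖q z‖ ≤ C) →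
      ∃ V : ℕ → Lp ℂ 2 μ, (∀ k, ‖V k‖ ≤ K * r ^ k) ∧
        (∀ k, T1 N u v (V k) - a • V k = V (k + 1) +
          (∫ z in ball a r, (z - a) ^ k * ψ z * (ff φ u v z * db q z)) • u) ∧
        ∀ x : Lp ℂ 2 μ, ⟪x, V 0⟫_ℂ = (∫ z, q z * db ψ z * ct φ x u z) +
          Real.pi * ∫ s, conj (x s) * (q (φ s) * ψ (φ s) * u s) ∂μ

/-- the pairings of the vectors `V 0` tend to zero -/
def Star {S : Type} [MeasurableSpace S] {μ : Measure S} (φ : S → ℂ) (u : Lp ℂ 2 μ) (a : ℂ)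
    (r : ℝ) (q : ℕ → ℂ → ℂ) : Prop :=
  ∀ ψ : ℂ → ℂ, ContDiff ℝ ∞ ψ → tsupport ψ ⊆ ball a r → ∀ x : Lp ℂ 2 μ,
    Tendsto (fun n => (∫ z, q n z * db ψ z * ct φ x u z) +
      Real.pi * ∫ s, conj (x s) * (q n (φ s) * ψ (φ s) * u s) ∂μ) atTop (𝓝 0)

/-- NUL: if there is no chain, then `Star` holds -/
def S_NUL : Prop :=
  ∀ (S : Type) [MeasurableSpace S] (μ : Measure S) [SigmaFinite μ] (φ : S → ℂ)
    (N : Lp ℂ 2 μ →L[ℂ] Lp ℂ 2 μ), IsMul φ N → ∀ (u v : Lp ℂ 2 μ) (a : ℂ) (r : ℝ), 0 < r →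
    ∀ (q : ℕ → ℂ → ℂ) (C : ℝ), (∀ n, ContDiff ℝ 1 (q n)) → (∀ n, ∀ z ∈ ball a r, ‖q n z‖ ≤ C) →
      Tendsto (fun n => ∫⁻ z in ball a r, ‖ff φ u v z * db (q n) z‖ₑ) atTop (𝓝 0) →
      ¬ HasCh (T1 N u v) a r → Star φ u a r q

/-- TST: weak limits of the `q n` are analytic near `a`, off `a` -/
def S_TST : Prop :=
  ∀ (S : Type) [MeasurableSpace S] (μ : Measure S) [SigmaFinite μ] (φ : S → ℂ), Measurable φ →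
    (∃ M : ℝ, ∀ s, ‖φ s‖ ≤ M) → ∀ (u : Lp ℂ 2 μ) (a : ℂ) (r : ℝ) (q : ℕ → ℂ → ℂ), 0 < r → u ≠ 0 →
    Star φ u a r q → ∃ ρ : ℝ, 0 < ρ ∧ ρ ≤ r ∧
      ∀ ψ : ℂ → ℂ, ContDiff ℝ ∞ ψ → tsupport ψ ⊆ ball a ρ \ {a} →
        Tendsto (fun n => ∫ z, q n z * db ψ z) atTop (𝓝 0)

/-- WKS: weak sequential compactness of bounded sets of functions -/
def S_WKS : Prop :=
  ∀ (q : ℕ → ℂ → ℂ) (a : ℂ) (r C : ℝ), 0 ≤ C → (∀ n, Measurable (q n)) →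
    (∀ n, ∀ z ∈ ball a r, ‖q n z‖ ≤ C) →
    ∃ (s : ℕ → ℕ) (Q : ℂ → ℂ), StrictMono s ∧ Measurable Q ∧ (∀ z, ‖Q z‖ ≤ C) ∧
      ∀ h : ℂ → ℂ, IntegrableOn h (ball a r) →
        Tendsto (fun n => ∫ z in ball a r, q (s n) z * h z) atTop
          (𝓝 (∫ z in ball a r, Q z * h z))

/-- WEYL: Weyl's lemma with a removable singularity -/
def S_WEYL : Prop :=
  ∀ (Q : ℂ → ℂ) (a : ℂ) (ρ C : ℝ), 0 < ρ → Measurable Q → (∀ z, ‖Q z‖ ≤ C) →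
    (∀ ψ : ℂ → ℂ, ContDiff ℝ ∞ ψ → tsupport ψ ⊆ ball a ρ \ {a} → ∫ z, Q z * db ψ z = 0) →
    ∃ G : ℂ → ℂ, DifferentiableOn ℂ G (ball a ρ) ∧ (∀ z ∈ ball a ρ, ‖G z‖ ≤ C) ∧
      ∀ᵐ z ∂(volume.restrict (ball a ρ)), Q z = G z

/-- MID: convergence of the `q n` with respect to the spectral measures -/
def S_MID : Prop :=
  ∀ (S : Type) [MeasurableSpace S] (μ : Measure S) [SigmaFinite μ] (φ : S → ℂ), Measurable φ →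
    ∀ (u : Lp ℂ 2 μ) (a : ℂ) (ρ C : ℝ) (q : ℕ → ℂ → ℂ) (G : ℂ → ℂ), 0 < ρ →
    (∀ n, ContDiff ℝ 1 (q n)) → (∀ n, ∀ z ∈ ball a ρ, ‖q n z‖ ≤ C) →
    DifferentiableOn ℂ G (ball a ρ) → (∀ z ∈ ball a ρ, ‖G z‖ ≤ C) →
    (∀ h : ℂ → ℂ, IntegrableOn h (ball a ρ) → Tendsto (fun n => ∫ z in ball a ρ, q n z * h z)
      atTop (𝓝 (∫ z in ball a ρ, G z * h z))) →
    Star φ u a ρ q →
    ∀ ψ : ℂ → ℂ, ContDiff ℝ ∞ ψ → tsupport ψ ⊆ ball a ρ → ∀ x : Lp ℂ 2 μ,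
      Tendsto (fun n => ∫ s, conj (x s) * (q n (φ s) * ψ (φ s) * u s) ∂μ) atTop
        (𝓝 (∫ s, conj (x s) * (G (φ s) * ψ (φ s) * u s) ∂μ))

/-- PTW: convergence almost everywhere -/
def S_PTW : Prop :=
  ∀ (S : Type) [MeasurableSpace S] (μ : Measure S) [SigmaFinite μ] (φ : S → ℂ), Measurable φ →
    ∀ (u v : Lp ℂ 2 μ) (a : ℂ) (ρ C : ℝ) (q : ℕ → ℂ → ℂ) (G : ℂ → ℂ), 0 < ρ →
    (∀ n, ContDiff ℝ 1 (q n)) → (∀ n, ∀ z ∈ ball a ρ, ‖q n z‖ ≤ C) →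
    DifferentiableOn ℂ G (ball a ρ) → (∀ z ∈ ball a ρ, ‖G z‖ ≤ C) →
    (∀ h : ℂ → ℂ, IntegrableOn h (ball a ρ) → Tendsto (fun n => ∫ z in ball a ρ, q n z * h z)
      atTop (𝓝 (∫ z in ball a ρ, G z * h z))) →
    Tendsto (fun n => ∫⁻ z in ball a ρ, ‖ff φ u v z * db (q n) z‖ₑ) atTop (𝓝 0) →
    ∀ ψ : ℂ → ℂ, ContDiff ℝ ∞ ψ → tsupport ψ ⊆ ball a ρ →
    (∀ x : Lp ℂ 2 μ,
      Tendsto (fun n => ∫ s, conj (x s) * (q n (φ s) * ψ (φ s) * u s) ∂μ) atTop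
        (𝓝 (∫ s, conj (x s) * (G (φ s) * ψ (φ s) * u s) ∂μ))) →
    ∃ s : ℕ → ℕ, StrictMono s ∧ ∀ᵐ w : ℂ, Tendsto (fun n => ψ w * q (s n) w * ff φ u v w) atTop
      (𝓝 (ψ w * G w * ff φ u v w))

/-- FID: the formula of Cauchy and Pompeiu for `χ f` -/
def S_FID : Prop :=
  ∀ (S : Type) [MeasurableSpace S] (μ : Measure S) [SigmaFinite μ] (φ : S → ℂ), Measurable φ →
    ∀ (u v : Lp ℂ 2 μ) (χ : ℂ → ℂ), ContDiff ℝ 1 χ → HasCompactSupport χ → ∀ᵐ w : ℂ,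
      Integrable (fun z => ff φ u v z * db χ z * (z - w)⁻¹) ∧
      Integrable (fun s => conj (v s) * u s * (φ s - w)⁻¹) μ ∧
      χ w * ff φ u v w = -(1 / Real.pi : ℂ) * (∫ z, ff φ u v z * db χ z * (z - w)⁻¹) +
        ∫ s, χ (φ s) * (conj (v s) * u s * (φ s - w)⁻¹) ∂μ

/-- CON: the contradiction -/
def S_CON : Prop :=
  ∀ (G : ℂ → ℂ) (a b : ℂ) (ρ : ℝ), 0 < ρ → ρ ≤ ‖b - a‖ → DifferentiableOn ℂ G (ball a ρ) →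
    ¬ ∀ᵐ z ∂(volume.restrict (ball a ρ)), ‖G z‖ ^ 2 = ‖z - a‖ * ‖z - b‖

/-! ### Case B -/

/-- approximate cut-off functions `Θ n` with `∂̄ Θ n ≈ f g n`, `g n` bounded -/
def Cut (f : ℂ → ℂ) (a : ℂ) (τ r : ℝ) : Prop :=
  ∃ (Θ g : ℕ → ℂ → ℂ) (C : ℝ), (∀ n, ContDiff ℝ ∞ (Θ n)) ∧ (∀ n, ∀ z ∈ ball a τ, Θ n z = 1) ∧
    (∀ n z, r ≤ ‖z - a‖ → Θ n z = 0) ∧ (∀ n, Measurable (g n)) ∧ (∀ n z, ‖g n z‖ ≤ C) ∧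
    (∀ n, ∀ z ∈ ball a τ, g n z = 0) ∧ (∀ n z, r ≤ ‖z - a‖ → g n z = 0) ∧
    Tendsto (fun n => ∫⁻ z, ‖f z * g n z - db (Θ n) z‖ₑ) atTop (𝓝 0)

/-- CUTV: the vectors in case B -/
def S_CUTV : Prop :=
  ∀ (S : Type) [MeasurableSpace S] (μ : Measure S) [SigmaFinite μ] (φ : S → ℂ)
    (N : Lp ℂ 2 μ →L[ℂ] Lp ℂ 2 μ), IsMul φ N → ∀ (u v : Lp ℂ 2 μ) (a : ℂ) (τ r : ℝ), 0 < τ →
    τ < r → Cut (ff φ u v) a τ r → ∀ x : Lp ℂ 2 μ, (∀ᵐ s ∂μ, φ s ∉ ball a (τ / 2) → x s = 0) →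
    ∃ (X : ℕ → ℕ → Lp ℂ 2 μ) (Z : ℕ → Lp ℂ 2 μ) (C : ℝ), (∀ n k, ‖X n k‖ ≤ C * r ^ k) ∧
      (∀ n, ‖Z n‖ ≤ C) ∧
      (∀ k, Tendsto (fun n => T1 N u v (X n k) - a • X n k - X n (k + 1)) atTop (𝓝 0)) ∧
      Tendsto (fun n => x - X n 0 - (T1 N u v (Z n) - a • Z n)) atTop (𝓝 0)

/-- FAR: vectors far away from `a` -/
def S_FAR : Prop :=
  ∀ (S : Type) [MeasurableSpace S] (μ : Measure S) [SigmaFinite μ] (φ : S → ℂ)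
    (N : Lp ℂ 2 μ →L[ℂ] Lp ℂ 2 μ), IsMul φ N → ∀ (u v : Lp ℂ 2 μ) (a : ℂ) (τ : ℝ), 0 < τ →
    ∀ x : Lp ℂ 2 μ, ∃ x₁ x₂ W : Lp ℂ 2 μ, ∃ c : ℂ, x = x₁ + x₂ ∧
      (∀ᵐ s ∂μ, φ s ∉ ball a τ → x₁ s = 0) ∧ x₂ = T1 N u v W - a • W + c • u

/-- `a` is a point of the essential spectrum of the normal operator `N` -/
def Ess {H : Type} [NormedAddCommGroup H] [InnerProductSpace ℂ H] [CompleteSpace H]
    (N : H →L[ℂ] H) (a : ℂ) : Prop :=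
  ∃ e : ℕ → H, (∀ n, ‖e n‖ = 1) ∧ (∀ w, Tendsto (fun n => ⟪w, e n⟫_ℂ) atTop (𝓝 0)) ∧
    Tendsto (fun n => N (e n) - a • e n) atTop (𝓝 0) ∧
    Tendsto (fun n => ContinuousLinearMap.adjoint N (e n) - (conj a) • e n) atTop (𝓝 0)

/-- SUR: near a point of the essential spectrum `T - a` is not surjective modulo `u` -/
def S_SUR : Prop :=
  ∀ (H : Type) [NormedAddCommGroup H] [InnerProductSpace ℂ H] [CompleteSpace H]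
    (N : H →L[ℂ] H) (u v : H) (a : ℂ), Ess N a →
    ¬ ∀ x : H, ∃ (W : H) (c : ℂ), x = T1 N u v W - a • W + c • u

/-- ESS: two points of the essential spectrum, or scalar plus compact -/
def S_ESS : Prop :=
  ∀ (S : Type) [MeasurableSpace S] (μ : Measure S) [SigmaFinite μ] (φ : S → ℂ)
    (N : Lp ℂ 2 μ →L[ℂ] Lp ℂ 2 μ), IsMul φ N →
    (∃ a b : ℂ, a ≠ b ∧ Ess N a ∧ Ess N b) ∨
      ∃ a : ℂ, IsCompactOperator (⇑(N - a • (1 : Lp ℂ 2 μ →L[ℂ] Lp ℂ 2 μ)))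

/-- NOR: chains of the multiplication operator itself -/
def S_NOR : Prop :=
  ∀ (S : Type) [MeasurableSpace S] (μ : Measure S) [SigmaFinite μ] (φ : S → ℂ)
    (N : Lp ℂ 2 μ →L[ℂ] Lp ℂ 2 μ), IsMul φ N → ∀ (a : ℂ) (r : ℝ), 0 < r → Ess N a → HasCh N a r

/-! ### The dichotomy -/

/-- the kernel `ε² / (π (|w|² + ε²)²)`, of integral one -/
noncomputable def pk (ε : ℝ) (w : ℂ) : ℝ := ε ^ 2 / (Real.pi * (‖w‖ ^ 2 + ε ^ 2) ^ 2)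

/-- the integral of `W` along the polygon with the vertices `z 0, …, z m` -/
noncomputable def cost (W : ℂ → ℝ) (z : ℕ → ℂ) (m : ℕ) : ℝ :=
  ∑ j ∈ Finset.range m, ‖z (j + 1) - z j‖ * ∫ t in (0:ℝ)..1, W (z j + t * (z (j + 1) - z j))

/-- the convolution of `h` with the kernel -/
noncomputable def pw (h : ℂ → ℝ) (ε : ℝ) (w : ℂ) : ℝ := ∫ z, h z * pk ε (w - z)

/-- a cheap polygon from near `a` to the outside of the disc -/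
def Cheap (W : ℂ → ℝ) (a : ℂ) (τ r η : ℝ) : Prop :=
  ∃ (z : ℕ → ℂ) (m : ℕ), z 0 ∈ ball a τ ∧ r ≤ ‖z m - a‖ ∧ ‖z m - a‖ ≤ r + 1 ∧ cost W z m < η

/-- the function `|f|` on the disc, zero outside -/
noncomputable def fd (f : ℂ → ℂ) (a : ℂ) (r : ℝ) : ℂ → ℝ := (ball a r).indicator (fun z => ‖f z‖)

/-- PCA: the convolutions converge in `L¹` -/
def S_PCA : Prop :=
  ∀ h : ℂ → ℝ, Integrable h → (∀ z, 0 ≤ h z) →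
    (∀ ε : ℝ, 0 < ε → Continuous (pw h ε) ∧ ∀ w, 0 ≤ pw h ε w) ∧
    Tendsto (fun n : ℕ => ∫⁻ z, ‖pw h (1 / (n + 1)) z - h z‖ₑ) atTop (𝓝 0)

/-- PCB: the cost of a polygon (Fubini) -/
def S_PCB : Prop :=
  ∀ h : ℂ → ℝ, Integrable h → (∀ z, 0 ≤ h z) → ∀ ε : ℝ, 0 < ε → ∀ (z : ℕ → ℂ) (m : ℕ),
    (∀ w, 0 ≤ cost (fun y => pk ε (y - w)) z m) ∧
    Integrable (fun w => h w * cost (fun y => pk ε (y - w)) z m) ∧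
    ∫ w, h w * cost (fun y => pk ε (y - w)) z m = cost (pw h ε) z m

/-- POL: the function `q` of a polygon -/
def S_POL : Prop :=
  ∀ (z : ℕ → ℂ) (m : ℕ) (ε : ℝ), 0 < ε → ∃ q : ℂ → ℂ, ContDiff ℝ 1 q ∧
    (∀ w, ‖q w‖ ^ 4 * (‖w - z 0‖ ^ 2 + ε ^ 2) = ‖w - z 0‖ ^ 4 * (‖w - z m‖ ^ 2 + ε ^ 2)) ∧
    ∀ w, ‖db q w‖ ≤ Real.pi / 2 * ‖q w‖ * cost (fun y => pk ε (y - w)) z m

/-- ALT: the alternative for a continuous weight -/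
def S_ALT : Prop :=
  ∀ (W : ℂ → ℝ) (a : ℂ) (τ r η : ℝ), Continuous W → (∀ z, 0 ≤ W z) → 0 < τ → τ < r → 0 < η →
    Cheap W a τ r η ∨
    ∃ Θ : ℂ → ℝ, (∀ z ∈ ball a τ, Θ z = 1) ∧ (∀ z, r ≤ ‖z - a‖ → Θ z = 0) ∧
      (∀ z, 0 ≤ Θ z ∧ Θ z ≤ 1) ∧
      ∀ z z', ‖z - z'‖ ≤ 1 →
        |Θ z - Θ z'| ≤ 1 / η * (‖z - z'‖ * ∫ t in (0:ℝ)..1, W (z + t * (z' - z)))

/-- SMO: mollification -/
def S_SMO : Prop :=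
  ∀ (W Θ : ℂ → ℝ) (a : ℂ) (τ r η δ : ℝ), Continuous W → (∀ z, 0 ≤ W z) → 0 < τ → τ < r →
    0 < η → 0 < δ → (∀ z ∈ ball a τ, Θ z = 1) → (∀ z, r ≤ ‖z - a‖ → Θ z = 0) →
    (∀ z, 0 ≤ Θ z ∧ Θ z ≤ 1) →
    (∀ z z', ‖z - z'‖ ≤ 1 →
      |Θ z - Θ z'| ≤ 1 / η * (‖z - z'‖ * ∫ t in (0:ℝ)..1, W (z + t * (z' - z)))) →
    ∃ Θ' : ℂ → ℂ, ContDiff ℝ ∞ Θ' ∧ (∀ z ∈ ball a (τ / 2), Θ' z = 1) ∧
      (∀ z, 2 * r ≤ ‖z - a‖ → Θ' z = 0) ∧ ∀ z, ‖db Θ' z‖ ≤ 1 / η * (W z + δ)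

/-- TUNA: cheap polygons give case A -/
def S_TUNA : Prop :=
  S_PCB → S_POL → ∀ (f : ℂ → ℂ) (a : ℂ) (r : ℝ), 0 < r → Measurable f →
    IntegrableOn f (ball a r) →
    (∀ k : ℕ, ∃ n : ℕ, k ≤ n ∧
      Cheap (pw (fd f a r) (1 / (n + 1))) a (1 / (k + 1)) r (1 / (k + 1))) → Tun f a r

/-- CUTA: smooth cut-off functions give case B -/
def S_CUTA : Prop :=
  S_PCA → ∀ (f : ℂ → ℂ) (a : ℂ) (τ r η : ℝ) (k : ℕ), 0 < τ → τ < r → 0 < η → Measurable f →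
    IntegrableOn f (ball a r) → (∀ᵐ z ∂(volume.restrict (ball a r)), f z ≠ 0) →
    ∀ Θ : ℕ → ℂ → ℂ, (∀ n, ContDiff ℝ ∞ (Θ n)) → (∀ n, ∀ z ∈ ball a τ, Θ n z = 1) →
      (∀ n z, 2 * r ≤ ‖z - a‖ → Θ n z = 0) →
      (∀ n z, ‖db (Θ n) z‖ ≤ 1 / η * (pw (fd f a r) (1 / ((n + k : ℕ) + 1)) z + 1 / (n + 1))) →
      Cut f a τ (2 * r)

end Pool.Agent.Y271.RO
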