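import Pool.Agent.Y271.RO.Asm
import Pool.Agent.Y271.RO.NulB
import Pool.Agent.Y271.RO.Stm2
import Pool.Agent.Y948.RO.HT
import Pool.Agent.Y108.RO.CTG
import Pool.Agent.Y510.RO.MV
import Pool.Agent.Y839.RO.POM
import Pool.Agent.Y406.RO.WLIM
import Pool.Agent.Y528.RO.TEST
import Pool.Agent.Y812.RO.ZERO
import Pool.Agent.Y914.RO.VEC
import Pool.Agent.Y51.RO.TST
import Pool.Agent.Y349.RO.WKS
import Pool.Agent.Y287.RO.MID
import Pool.Agent.Y51.RO.FID
import Pool.Agent.Y484.RO.PTW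
import Pool.Agent.Y812.RO.Contra
import Pool.Agent.Y941.RO.CUTV
import Pool.Agent.Y908.RO.FAR
import Pool.Agent.Y908.RO.SUR
import Pool.Agent.Y442.RO.NOR
import Pool.Agent.Y812.RO.PCA
import Pool.Agent.Y433.RO.PCB
import Pool.Agent.Y145.RO.POL
import Pool.Agent.Y286.RO.ALT
import Pool.Agent.Y31.RO.SMO
import Pool.Agent.Y587.RO.TUNA
import Pool.Agent.Y927.RO.CUTA
import Pool.Agent.W706.HIR.Main
import Pool.Agent.W806.HI.G2
import Pool.Agent.Y271.RO.Weyl
import Pool.Agent.Y180.RO.FRE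

/-!
# Project RO: the theorem
-/

set_option autoImplicit false

namespace Pool.Agent.Y271.RO

open MeasureTheory Set Metric Filter Topology
open scoped InnerProductSpace ENNReal NNReal ComplexConjugate ContDiff
open Pool.Agent.Y283.NK (ct IsMul HasHyp LocVec cj)

theorem hHT : S_HT := Pool.Agent.Y948.RO.main
theorem hCTG : S_CTG := Pool.Agent.Y108.RO.main
theorem hMV : S_MV := Pool.Agent.Y510.RO.MV.main
theorem hPOM : S_POM := Pool.Agent.Y839.RO.main
theorem hWLIM : S_WLIM := Pool.Agent.Y406.RO.WLIM.main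
theorem hTEST : S_TEST := Pool.Agent.Y528.RO.main
theorem hZERO : S_ZERO := Pool.Agent.Y812.RO.ZERO.main hHT hCTG hMV hTEST
theorem hVEC : S_VEC := Pool.Agent.Y914.RO.VEC.main hHT hCTG hMV hPOM
theorem hNUL : S_NUL := NULB.main hVEC hWLIM
theorem hTST : S_TST := Pool.Agent.Y51.RO.TST.main hTEST hPOM
theorem hWKS : S_WKS := Pool.Agent.Y349.RO.main
theorem hMID : S_MID := Pool.Agent.Y287.RO.main hHT hCTG hPOM
theorem hFID : S_FID := Pool.Agent.Y51.RO.FID.main hHT hCTG hPOM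
theorem hPTW : S_PTW := Pool.Agent.Y484.RO.main hFID hCTG hPOM hHT
theorem hCON : S_CON := Pool.Agent.Y812.RO.Contra.main
theorem hCUTV : S_CUTV := Pool.Agent.Y941.RO.main hHT hCTG hMV hPOM
theorem hFAR : S_FAR := Pool.Agent.Y908.RO.FAR.main hMV
theorem hSUR : S_SUR := Pool.Agent.Y908.RO.SUR.main
theorem hNOR : S_NOR := Pool.Agent.Y442.RO.NOR.main
theorem hPCA : S_PCA := Pool.Agent.Y812.RO.PCA.main
theorem hPCB : S_PCB := Pool.Agent.Y433.RO.main
theorem hPOL : S_POL := Pool.Agent.Y145.RO.POL.main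
theorem hALT : S_ALT := Pool.Agent.Y286.RO.main
theorem hSMO : S_SMO := Pool.Agent.Y31.RO.main
theorem hTUNA : S_TUNA := Pool.Agent.Y587.RO.main
theorem hCUTA : S_CUTA := Pool.Agent.Y927.RO.CUTA.main

theorem hWEYL : S_WEYL := Pool.Agent.Y271.RO.WEYL.main
theorem hFRE : S_FRE := Pool.Agent.Y180.RO.FRE.main

/-- chains at all points of the essential spectrum -/
theorem chains (S : Type) [MeasurableSpace S] (μ : Measure S) [SigmaFinite μ]
    (φ : S → ℂ) (N : Lp ℂ 2 μ →L[ℂ] Lp ℂ 2 μ) (hN : IsMul φ N) (u v : Lp ℂ 2 μ) (a : ℂ) (r : ℝ)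
    (hr : 0 < r) (hE : Ess N a) : HasCh (T1 N u v) a r :=
  chain hCTG hZERO hPCA hPCB hPOL hALT hSMO hTUNA hCUTA hWLIM hCUTV hFAR hSUR hNUL hTST hWKS hWEYL
    hMID hPTW hCON hPOM hNOR hN u v a r hr hE

/-- small local spectra at every point of the spectrum -/
theorem locVec {S : Type} [MeasurableSpace S] {μ : Measure S}
    [SigmaFinite μ] {φ : S → ℂ} {N : Lp ℂ 2 μ →L[ℂ] Lp ℂ 2 μ} (hN : IsMul φ N) (u v : Lp ℂ 2 μ) :
    LocVec (T1 N u v) := by
  intro c hc ε hε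
  rcases hFRE S μ φ N hN c with hE | ⟨A, F, h1, h2, h3⟩
  · obtain ⟨X, ⟨X1, C, X2⟩, X3⟩ := chains S μ φ N hN u v c ε hε hE
    refine ⟨X 0, C, X3, fun n => ?_⟩
    rw [Pool.Agent.Y283.NK.pow_of_rec X1]
    exact X2 n
  · have h4 : T1 N u v = A + (F + (innerSL ℂ v).smulRight u) := by
      unfold T1
      rw [h1]
      abel
    have hc' : c ∈ spectrum ℂ (A + (F + (innerSL ℂ v).smulRight u)) := by rwa [← h4]
    obtain ⟨x, hx0, hx⟩ := Pool.Agent.W706.HIR.eigen_of_spectrum (h2.add (rank_compact u v))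
      (by
        by_contra h
        exact h3 h) hc'
    rw [← h4] at hx
    refine ⟨x, ‖x‖, hx0, fun n => ?_⟩
    have h5 : (T1 N u v - c • (1 : Lp ℂ 2 μ →L[ℂ] Lp ℂ 2 μ)) x = 0 := by
      show T1 N u v x - c • x = 0
      rw [hx, sub_self]
    cases n with
    | zero => simp
    | succ n =>
      have h6 : ((T1 N u v - c • (1 : Lp ℂ 2 μ →L[ℂ] Lp ℂ 2 μ)) ^ (n + 1)) x = 0 := by
        rw [pow_succ]
        show ((T1 N u v - c • (1 : Lp ℂ 2 μ →L[ℂ] Lp ℂ 2 μ)) ^ n)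
          ((T1 N u v - c • (1 : Lp ℂ 2 μ →L[ℂ] Lp ℂ 2 μ)) x) = 0
        rw [h5, map_zero]
      rw [h6, norm_zero]
      positivity

/-- operators with small local spectra at two points of the spectrum -/
theorem hyp_of_locVec {H : Type} [NormedAddCommGroup H] [InnerProductSpace ℂ H] [CompleteSpace H]
    {T : H →L[ℂ] H} (h1 : LocVec T) (h2 : LocVec (ContinuousLinearMap.adjoint T)) {c₁ c₂ : ℂ}
    (hc₁ : c₁ ∈ spectrum ℂ T) (hc₂ : c₂ ∈ spectrum ℂ T) (hne : c₁ ≠ c₂) : HasHyp T := by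
  have hdist : 0 < ‖c₁ - c₂‖ := norm_pos_iff.2 (sub_ne_zero.2 hne)
  have hc₂' : (conj c₂) ∈ spectrum ℂ (ContinuousLinearMap.adjoint T) := by
    have h1 : ContinuousLinearMap.adjoint T = star T := rfl
    rw [h1, spectrum.map_star]
    simpa using hc₂
  obtain ⟨x, C₁, hx0, hx⟩ := h1 c₁ hc₁ (‖c₁ - c₂‖ / 3) (by positivity)
  obtain ⟨y, C₂, hy0, hy⟩ := h2 (conj c₂) hc₂' (‖c₁ - c₂‖ / 3) (by positivity)
  refine Pool.Agent.Y529.NK.ANN.main H T c₁ c₂ (‖c₁ - c₂‖ / 3) (‖c₁ - c₂‖ / 3) C₁ C₂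
    (fun n => ((T - c₁ • (1 : H →L[ℂ] H)) ^ n) x)
    (fun n => ((ContinuousLinearMap.adjoint T - (conj c₂) • (1 : H →L[ℂ] H)) ^ n) y)
    (by positivity) (by positivity) (by linarith) (fun a => ?_) hx (fun a => ?_) hy ?_ ?_
  · rw [pow_succ']
    rfl
  · rw [pow_succ']
    rfl
  · simpa using hx0
  · simpa using hy0

/-- the theorem -/
theorem main
    (H : Type) [NormedAddCommGroup H] [InnerProductSpace ℂ H] [CompleteSpace H]
    [TopologicalSpace.SeparableSpace H] (N : H →L[ℂ] H) (hN : IsStarNormal N) (u v : H) :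
    ((∃ c : ℂ, T1 N u v = c • 1) ∨ HasHyp (T1 N u v)) ∧ LocVec (T1 N u v) ∧
      LocVec (ContinuousLinearMap.adjoint (T1 N u v)) := by
  obtain ⟨S, _, μ, _, φ, W, hMul, hT⟩ := exists_model H N hN
  have hT' := hT u v
  have hL1 : LocVec (T1 N u v) := by
    have h := locVec hMul (W.symm u) (W.symm v)
    rw [hT'] at h
    exact Pool.Agent.Y283.NK.locvec_of_cj W h
  have hL2 : LocVec (ContinuousLinearMap.adjoint (T1 N u v)) := by
    have h := locVec (Pool.Agent.Y77.NK.isMul_adj hMul) (W.symm v) (W.symm u)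
    rw [← adj_T1, hT'] at h
    have h2 : ContinuousLinearMap.adjoint (cj W (T1 N u v)) =
        cj W (ContinuousLinearMap.adjoint (T1 N u v)) := by
      ext1 f
      refine ext_inner_right ℂ fun y => ?_
      rw [ContinuousLinearMap.adjoint_inner_left, Pool.Agent.Y283.NK.cj_apply,
        Pool.Agent.Y283.NK.cj_apply]
      calc ⟪f, W.symm ((T1 N u v) (W y))⟫_ℂ = ⟪W f, (T1 N u v) (W y)⟫_ℂ := by
            rw [← W.inner_map_map, LinearIsometryEquiv.apply_symm_apply]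
        _ = ⟪ContinuousLinearMap.adjoint (T1 N u v) (W f), W y⟫_ℂ := by
            rw [ContinuousLinearMap.adjoint_inner_left]
        _ = ⟪W.symm (ContinuousLinearMap.adjoint (T1 N u v) (W f)), y⟫_ℂ := by
            rw [← W.inner_map_map, LinearIsometryEquiv.apply_symm_apply]
    rw [h2] at h
    exact Pool.Agent.Y283.NK.locvec_of_cj W h
  refine ⟨?_, hL1, hL2⟩
  by_cases hsc : ∃ c : ℂ, T1 N u v = c • 1
  · exact Or.inl hsc
  right
  have hnt : Nontrivial H := by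
    by_contra h
    rw [not_nontrivial_iff_subsingleton] at h
    apply hsc
    refine ⟨0, ?_⟩
    ext1 f
    exact Subsingleton.elim _ _
  obtain ⟨c₁, hc₁⟩ := spectrum.nonempty (T1 N u v)
  by_cases hone : spectrum ℂ (T1 N u v) = {c₁}
  · have hK : IsCompactOperator (⇑((innerSL ℂ v).smulRight u : H →L[ℂ] H)) := rank_compact u v
    have h2 := Pool.Agent.W806.HI.main H N ((innerSL ℂ v).smulRight u) c₁ hN hK hone
    have h3 : IsCompactOperator (⇑(T1 N u v - c₁ • (1 : H →L[ℂ] H))) := by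
      have h4 : T1 N u v - c₁ • (1 : H →L[ℂ] H) =
          (N - c₁ • (1 : H →L[ℂ] H)) + (innerSL ℂ v).smulRight u := by
        unfold T1
        abel
      rw [h4]
      exact h2.add hK
    refine hyp_shift c₁ (Pool.Agent.W577.HI.G1.main _ _ h3 ?_)
    rintro ⟨c, hc⟩
    apply hsc
    refine ⟨c + c₁, ?_⟩
    rw [add_smul, ← hc]
    abel
  · obtain ⟨c₂, hc₂, hne⟩ : ∃ c₂ ∈ spectrum ℂ (T1 N u v), c₂ ≠ c₁ := by
      by_contra hcon
      push Not at hcon
      apply hone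
      ext z
      exact ⟨fun hz => hcon z hz, fun hz => by rw [mem_singleton_iff.1 hz]; exact hc₁⟩
    exact hyp_of_locVec hL1 hL2 hc₁ hc₂ (Ne.symm hne)

end Pool.Agent.Y271.RO
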